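import Mathlib
import Pool.Agent.H5.Amp

namespace Pool.Agent.Results.MP_229e70_co.Small

open Pool.Agent.H5.Amp

/-- The matrix u · σ built from the three Pauli matrices. -/
noncomputable def pauliDot (u : EuclideanSpace ℝ (Fin 3)) : Matrix (Fin 2) (Fin 2) ℂ :=
  (u 0 : ℂ) • !![0, 1; 1, 0] + (u 1 : ℂ) • !![0, -Complex.I; Complex.I, 0] +
    (u 2 : ℂ) • !![1, 0; 0, -1]

/-- The symplectic form on ℂ². -/
def omega (a b : Fin 2 → ℂ) : ℂ := a 0 * b 1 - a 1 * b 0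

/-- ψ assigns to each ordered adjacent pair (i,j) a unit vector fixed by u_ij · σ. -/
def IsSpinorChoice {n : ℕ} (G : SimpleGraph (Fin n)) (x : Fin n → EuclideanSpace ℝ (Fin 3))
    (ψ : G.Dart → Fin 2 → ℂ) : Prop :=
  ∀ d : G.Dart, ‖ψ d 0‖ ^ 2 + ‖ψ d 1‖ ^ 2 = 1 ∧
    (pauliDot (‖x d.snd - x d.fst‖⁻¹ • (x d.snd - x d.fst))).mulVec (ψ d) = ψ d

/-- Δ contains exactly one of (i,j), (j,i) for each edge. -/
def IsOrientation {n : ℕ} (G : SimpleGraph (Fin n)) (Δ : Finset G.Dart) : Prop :=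
  ∀ d : G.Dart, d ∈ Δ ↔ d.symm ∉ Δ

open Classical in
/-- The G-amplitude. -/
noncomputable def amplitude {n : ℕ} (G : SimpleGraph (Fin n)) (ψ : G.Dart → Fin 2 → ℂ)
    (Δ : Finset G.Dart) : ℂ :=
  (∑ σ ∈ Finset.univ.filter (fun σ : Equiv.Perm G.Dart => ∀ d, (σ d).fst = d.fst),
      ∏ d ∈ Δ, omega (ψ (σ d)) (ψ (σ d.symm))) /
    ∏ d ∈ Δ, omega (ψ d) (ψ d.symm)

theorem eigen_iff (v : EuclideanSpace ℝ (Fin 3)) (s t l : ℝ) (hl : 0 < l) (hr : 0 < s ^ 2 + t ^ 2)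
    (h0 : v 0 = l * (2 * s * t)) (h1 : v 1 = 0) (h2 : v 2 = l * (s ^ 2 - t ^ 2))
    (ψ : Fin 2 → ℂ) :
    (pauliDot (‖v‖⁻¹ • v)).mulVec ψ = ψ ↔ (s : ℂ) * ψ 1 = (t : ℂ) * ψ 0 := by
  have hn : ‖v‖ = l * (s ^ 2 + t ^ 2) := by
    rw [EuclideanSpace.norm_eq, Fin.sum_univ_three, h0, h1, h2]
    rw [Real.sqrt_eq_iff_mul_self_eq (by positivity) (by positivity)]
    simp only [Real.norm_eq_abs, sq_abs]
    ring
  have hl' : (l : ℂ) ≠ 0 := by exact_mod_cast hl.ne'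
  have hr' : ((s : ℂ) ^ 2 + (t : ℂ) ^ 2) ≠ 0 := by exact_mod_cast hr.ne'
  have e0 : (pauliDot (‖v‖⁻¹ • v)).mulVec ψ 0
      = (((s : ℂ) ^ 2 - t ^ 2) * ψ 0 + 2 * s * t * ψ 1) / ((s : ℂ) ^ 2 + (t : ℂ) ^ 2) := by
    simp [pauliDot, Matrix.mulVec, dotProduct, Fin.sum_univ_two, hn, h0, h1, h2]
    field_simp
  have e1 : (pauliDot (‖v‖⁻¹ • v)).mulVec ψ 1
      = (2 * s * t * ψ 0 - ((s : ℂ) ^ 2 - t ^ 2) * ψ 1) / ((s : ℂ) ^ 2 + (t : ℂ) ^ 2) := by
    simp [pauliDot, Matrix.mulVec, dotProduct, Fin.sum_univ_two, hn, h0, h1, h2]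
    field_simp
    ring
  constructor
  · intro h
    have a0 := congrFun h 0
    have a1 := congrFun h 1
    rw [e0, div_eq_iff hr'] at a0
    rw [e1, div_eq_iff hr'] at a1
    have : ((s : ℂ) ^ 2 + (t : ℂ) ^ 2) * ((s : ℂ) * ψ 1 - t * ψ 0) = 0 := by
      linear_combination (t / 2 : ℂ) * a0 - (s / 2 : ℂ) * a1
    exact sub_eq_zero.1 ((mul_eq_zero.1 this).resolve_left hr')
  · intro h
    funext i
    fin_cases i
    · show (pauliDot (‖v‖⁻¹ • v)).mulVec ψ 0 = ψ 0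
      rw [e0, div_eq_iff hr']
      linear_combination (2 * t : ℂ) * h
    · show (pauliDot (‖v‖⁻¹ • v)).mulVec ψ 1 = ψ 1
      rw [e1, div_eq_iff hr']
      linear_combination (-2 * s : ℂ) * h

theorem prod_orient {n : ℕ} {G : SimpleGraph (Fin n)} (Δ Δ' : Finset G.Dart)
    (hΔ : IsOrientation G Δ) (hΔ' : IsOrientation G Δ') :
    ∃ ε : ℂ, ∀ w : G.Dart → ℂ, (∀ d, w d.symm = -w d) → ∏ d ∈ Δ, w d = ε * ∏ d ∈ Δ', w d := by
  classical
  refine ⟨∏ _d ∈ Δ' \ Δ, (-1), fun w hw => ?_⟩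
  rw [← Finset.prod_inter_mul_prod_sdiff Δ Δ' w, ← Finset.prod_inter_mul_prod_sdiff Δ' Δ w,
    Finset.inter_comm Δ' Δ]
  have : ∏ d ∈ Δ \ Δ', w d = ∏ d ∈ Δ' \ Δ, (-1 * w d) := by
    refine Finset.prod_nbij' (fun d => d.symm) (fun d => d.symm) ?_ ?_ ?_ ?_ ?_
    · intro d hd
      rw [Finset.mem_sdiff] at hd ⊢
      refine ⟨?_, (hΔ d).1 hd.1⟩
      by_contra hc
      exact hd.2 ((hΔ' d).2 hc)
    · intro d hd
      rw [Finset.mem_sdiff] at hd ⊢
      refine ⟨?_, (hΔ' d).1 hd.1⟩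
      by_contra hc
      exact hd.2 ((hΔ d).2 hc)
    · intro d _; simp
    · intro d _; simp
    · intro d _; rw [hw]; ring
  rw [this, Finset.prod_mul_distrib]
  ring

theorem prod_pair {n : ℕ} {G : SimpleGraph (Fin n)} [Fintype G.Dart] (Δ : Finset G.Dart)
    (hΔ : IsOrientation G Δ) (c : G.Dart → ℂ) :
    ∏ d ∈ Δ, (c d * c d.symm) = ∏ d, c d := by
  classical
  rw [Finset.prod_mul_distrib, ← Finset.prod_mul_prod_compl Δ c]
  congr 1
  refine Finset.prod_nbij' (fun d => d.symm) (fun d => d.symm) ?_ ?_ ?_ ?_ ?_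
  · intro d hd
    rw [Finset.mem_compl]
    exact (hΔ d).1 hd
  · intro d hd
    rw [Finset.mem_compl] at hd
    by_contra hc
    exact hd ((hΔ d).2 hc)
  · intro d _; simp
  · intro d _; simp
  · intro d _; rfl

noncomputable def pt (i : Fin 10) : EuclideanSpace ℝ (Fin 3) := !₂[φ (X i).2, 0, φ (X i).1]

theorem eigen_dart (d : theta.Dart) (ψ : Fin 2 → ℂ) :
    (pauliDot (‖pt d.snd - pt d.fst‖⁻¹ • (pt d.snd - pt d.fst))).mulVec ψ = ψ ↔
      ((φ (W d.fst d.snd).1 : ℝ) : ℂ) * ψ 1 = ((φ (W d.fst d.snd).2 : ℝ) : ℂ) * ψ 0 := by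
  obtain ⟨h1, h2, h3, h4, -⟩ := data_ok d.fst d.snd d.adj
  refine eigen_iff _ _ _ (φ (len d.fst d.snd)) (φ_pos h3) ?_ ?_ ?_ ?_ ψ
  · have := φ_pos h4
    simpa using this
  · have := congrArg φ h2
    simpa [pt, map_ofNat] using this
  · simp [pt]
  · have := congrArg φ h1
    simpa [pt] using this

theorem r_pos (d : theta.Dart) :
    0 < φ (W d.fst d.snd).1 ^ 2 + φ (W d.fst d.snd).2 ^ 2 := by
  obtain ⟨-, -, -, h4, -⟩ := data_ok d.fst d.snd d.adj
  simpa using φ_pos h4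

theorem zero : ∃ (n : ℕ) (G : SimpleGraph (Fin n)) (x : Fin n → EuclideanSpace ℝ (Fin 3)),
    (∀ i j, G.Adj i j → x i ≠ x j) ∧ (∃ ψ, IsSpinorChoice G x ψ) ∧ (∃ Δ, IsOrientation G Δ) ∧
    ∀ (ψ : G.Dart → Fin 2 → ℂ) (Δ : Finset G.Dart), IsSpinorChoice G x ψ → IsOrientation G Δ →
      (∏ d ∈ Δ, omega (ψ d) (ψ d.symm)) ≠ 0 ∧ amplitude G ψ Δ = 0 := by
  have hΔ0 : IsOrientation theta (Finset.univ.filter fun d : theta.Dart => d.fst < d.snd) := by
    intro d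
    simp only [Finset.mem_filter, Finset.mem_univ, true_and]
    have hne : d.fst ≠ d.snd := d.adj.ne
    show d.fst < d.snd ↔ ¬ d.snd < d.fst
    omega
  refine ⟨10, theta, pt, ?_, ?_, ⟨_, hΔ0⟩, ?_⟩
  · intro i j hij hx
    obtain ⟨h1, h2, h3, h4, -⟩ := data_ok i j hij
    have a0 : φ (X i).2 = φ (X j).2 := by simpa [pt] using congrArg (fun v => v 0) hx
    have a2 : φ (X i).1 = φ (X j).1 := by simpa [pt] using congrArg (fun v => v 2) hx
    have b1 := congrArg φ h1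
    have b2 := congrArg φ h2
    have b3 := φ_pos h3
    have b4 := φ_pos h4
    simp only [map_sub, map_mul, map_pow, map_add, map_ofNat] at b1 b2 b4
    rw [a2, sub_self] at b1
    rw [a0, sub_self] at b2
    have c1 := (mul_eq_zero.1 b1.symm).resolve_left b3.ne'
    have c2 := (mul_eq_zero.1 b2.symm).resolve_left b3.ne'
    have : (φ (W i j).1 ^ 2 + φ (W i j).2 ^ 2) ^ 2 = 0 := by
      linear_combination (φ (W i j).1 ^ 2 - φ (W i j).2 ^ 2) * c1 +
        (2 * φ (W i j).1 * φ (W i j).2) * c2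
    exact absurd this (by positivity)
  · refine ⟨fun d => ![((φ (W d.fst d.snd).1 /
        √(φ (W d.fst d.snd).1 ^ 2 + φ (W d.fst d.snd).2 ^ 2) : ℝ) : ℂ),
        ((φ (W d.fst d.snd).2 /
        √(φ (W d.fst d.snd).1 ^ 2 + φ (W d.fst d.snd).2 ^ 2) : ℝ) : ℂ)], fun d => ⟨?_, ?_⟩⟩
    · have := r_pos d
      simp only [Matrix.cons_val_zero, Matrix.cons_val_one, Complex.norm_real, Real.norm_eq_abs,
        sq_abs, div_pow, Real.sq_sqrt this.le]
      field_simp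
    · rw [eigen_dart]
      simp only [Matrix.cons_val_zero, Matrix.cons_val_one]
      push_cast
      ring
  · intro ψ Δ hψ hΔ
    have hc : ∀ d : theta.Dart, ∃ c : ℂ, c ≠ 0 ∧ ψ d 0 = c * ((φ (W d.fst d.snd).1 : ℝ) : ℂ) ∧
        ψ d 1 = c * ((φ (W d.fst d.snd).2 : ℝ) : ℂ) := by
      intro d
      have h1 := (eigen_dart d _).1 (hψ d).2
      have h2 : ((φ (W d.fst d.snd).1 : ℝ) : ℂ) ^ 2 + ((φ (W d.fst d.snd).2 : ℝ) : ℂ) ^ 2 ≠ 0 := by
        exact_mod_cast (r_pos d).ne'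
      generalize ((φ (W d.fst d.snd).1 : ℝ) : ℂ) = s at h1 h2 ⊢
      generalize ((φ (W d.fst d.snd).2 : ℝ) : ℂ) = t at h1 h2 ⊢
      have e0 : ψ d 0 = (s * ψ d 0 + t * ψ d 1) / (s ^ 2 + t ^ 2) * s := by
        field_simp
        linear_combination (-t) * h1
      have e1 : ψ d 1 = (s * ψ d 0 + t * ψ d 1) / (s ^ 2 + t ^ 2) * t := by
        field_simp
        linear_combination s * h1
      refine ⟨_, ?_, e0, e1⟩
      intro h0
      have h3 := (hψ d).1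
      rw [h0, zero_mul] at e0 e1
      rw [e0, e1] at h3
      simp at h3
    choose c hc0 hc1 hc2 using hc
    have hom : ∀ d e : theta.Dart, omega (ψ d) (ψ e)
        = c d * c e * ((φ (om (W d.fst d.snd) (W e.fst e.snd)) : ℝ) : ℂ) := by
      intro d e
      unfold omega om
      rw [hc1, hc1, hc2, hc2]
      simp only [map_sub, map_mul]
      push_cast
      ring
    constructor
    · rw [Finset.prod_ne_zero_iff]
      intro d _
      rw [hom]
      refine mul_ne_zero (mul_ne_zero (hc0 _) (hc0 _)) ?_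
      obtain ⟨-, -, -, -, h5⟩ := data_ok d.fst d.snd d.adj
      have : φ (om (W d.fst d.snd) (W d.snd d.fst)) ≠ 0 := by
        rcases h5 with h | h
        · exact (φ_pos h).ne'
        · have := φ_pos h
          rw [map_neg] at this
          linarith
      exact_mod_cast this
    · unfold amplitude
      rw [div_eq_zero_iff]
      left
      obtain ⟨ε, hε⟩ := prod_orient Δ _ hΔ hΔ0
      have key := fun P hP => num_zero P hP
        (Finset.univ.filter fun d : theta.Dart => d.fst < d.snd) (by intro d; simp)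
      have gen : ∀ P : Finset (Equiv.Perm theta.Dart), (∀ σ, σ ∈ P ↔ ∀ d, (σ d).fst = d.fst) →
          ∑ σ ∈ P, ∏ d ∈ Δ, omega (ψ (σ d)) (ψ (σ d.symm)) = 0 := by
        intro P hP
        have k2 := congrArg (fun a => ((φ a : ℝ) : ℂ)) (key P hP)
        simp only [map_sum, map_prod, map_zero] at k2
        push_cast at k2
        have : ∀ σ ∈ P, ∏ d ∈ Δ, omega (ψ (σ d)) (ψ (σ d.symm)) = (ε * ∏ d, c d) *
            ∏ d ∈ (Finset.univ.filter fun d : theta.Dart => d.fst < d.snd),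
              ((φ (om (W (σ d).fst (σ d).snd) (W (σ d.symm).fst (σ d.symm).snd)) : ℝ) : ℂ) := by
          intro σ _
          rw [hε (fun d => omega (ψ (σ d)) (ψ (σ d.symm)))
            (by intro d; simp only [SimpleGraph.Dart.symm_symm, omega]; ring)]
          simp only [hom]
          rw [Finset.prod_mul_distrib, prod_pair _ hΔ0 (fun d => c (σ d)),
            Equiv.prod_comp σ c, mul_assoc]
        rw [Finset.sum_congr rfl this, ← Finset.mul_sum, k2, mul_zero]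
      exact gen _ (by intro σ; simp)

/-- Some graph has an admissible configuration at which the amplitude has modulus below `1`. -/
theorem result : ∃ (n : ℕ) (G : SimpleGraph (Fin n)) (x : Fin n → EuclideanSpace ℝ (Fin 3)),
    (∀ i j, G.Adj i j → x i ≠ x j) ∧ (∃ ψ, IsSpinorChoice G x ψ) ∧ (∃ Δ, IsOrientation G Δ) ∧
    ∀ (ψ : G.Dart → Fin 2 → ℂ) (Δ : Finset G.Dart), IsSpinorChoice G x ψ → IsOrientation G Δ →
      (∏ d ∈ Δ, omega (ψ d) (ψ d.symm)) ≠ 0 ∧ ‖amplitude G ψ Δ‖ < 1 := by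
  obtain ⟨n, G, x, h1, h2, h3, h4⟩ := zero
  exact ⟨n, G, x, h1, h2, h3, fun ψ Δ a b => ⟨(h4 ψ Δ a b).1, by simp [(h4 ψ Δ a b).2]⟩⟩

end Pool.Agent.Results.MP_229e70_co.Small
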